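import Mathlib
import Pool.Agent.H90.P.Ns
import Pool.Agent.H90.P.W602.GT.Defs
import Pool.Agent.H90.P.Y172.Gauss

/-!
Traces of regular canonical forms, and general type.
-/

set_option autoImplicit false
set_option linter.overlappingInstances false
set_option linter.unusedSectionVars false

open FF Polynomial Pool.Agent.W602.GT Pool.Agent.W603.LV Pool.Agent.W619.PQ Pool.Agent.Y172
open Pool.Agent.Y692.NT

namespace Pool.Agent.Y184.NT

section

variable {K : Type} [Field K] [Algebra ℂ K] {n : ℕ}

/-- the trace form of `W` in the coordinates `y` -/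
noncomputable def trForm (y : Fin n → K) (t : K) (D : Fin n → Derivation ℂ K K) : K :=
  (Matrix.of fun i j => D i (y j) : Matrix (Fin n) (Fin n) K).det * t

theorem trForm_pluri (y : Fin n → K) (t : K) : IsPluri 1 (trForm y t) := by
  intro A D
  have e1 : (Matrix.of fun a b => (∑ j, A a j • D j) (y b)) =
      A * Matrix.of fun a b => D a (y b) := by
    ext a b
    rw [Matrix.of_apply, Matrix.mul_apply, sum_smul_apply]
    rfl
  change (Matrix.of fun a b => (∑ j, A a j • D j) (y b)).det * _ = _
  rw [e1, Matrix.det_mul, pow_one, mul_assoc]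
  rfl

end

section

variable {K L : Type} [Field K] [Field L] [Algebra ℂ K] [Algebra ℂ L] [Algebra K L]
  [IsScalarTower ℂ K L] [FiniteDimensional K L] [Algebra.EssFiniteType ℂ K]
  [Algebra.EssFiniteType ℂ L] {n : ℕ}

end

end Pool.Agent.Y184.NT
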