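import Mathlib
import Pool.Agent.H90.P.Ns

/-!
Varieties dominated by a hypersurface with an adjoint form.
-/

set_option autoImplicit false
set_option linter.overlappingInstances false
set_option linter.unusedSectionVars false

open FF Polynomial Pool.Agent.W602.GT Pool.Agent.W603.LV

namespace Pool.Agent.Y184.NT

section

variable {L K : Type} [Field L] [Field K] [Algebra ℂ L] [Algebra ℂ K] [Algebra L K]
  [IsScalarTower ℂ L K] [FiniteDimensional L K] {n d : ℕ}

theorem trdeg_below [FiniteDimensional L K] (htr : Algebra.trdeg ℂ K = n) :
    Algebra.trdeg ℂ L = n := by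
  have h1 := trdeg_add_eq ℂ L (A := K)
  have h2 : Algebra.trdeg L K = 0 := by
    rw [trdeg_eq_zero_iff]
    infer_instance
  rw [h2, add_zero, htr] at h1
  exact h1

end

end Pool.Agent.Y184.NT
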